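import Pool.Agent.helper90.IV.Spec

set_option autoImplicit false

open scoped BigOperators

namespace Pool.Agent.IV

open Pool.Agent.helper23.TH Pool.Agent.KS

noncomputable section

open Classical

namespace H63

theorem cd_le_deg {V : Type} [Fintype V] (A : V → V → Prop) (v w : V) : cd A v w ≤ deg A v := by
  unfold cd deg
  apply Finset.card_le_card
  intro z hz
  simp only [Finset.mem_filter, Finset.mem_univ, true_and] at hz ⊢
  exact hz.1

theorem pw (Δ x y : ℝ) (q q' s : ℕ) (hΔ : 0 < Δ) (hx0 : 0 ≤ x) (hy0 : 0 ≤ y) (hx : x ≤ Δ) (hy : y ≤ Δ)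
    (hs : s ≤ q + q') : x ^ q * y ^ q' ≤ Δ ^ (q + q') * ((x / Δ) ^ s + (y / Δ) ^ s) := by
  have hu0 : 0 ≤ x / Δ := div_nonneg hx0 hΔ.le
  have hv0 : 0 ≤ y / Δ := div_nonneg hy0 hΔ.le
  have hu1 : x / Δ ≤ 1 := (div_le_one hΔ).2 hx
  have hv1 : y / Δ ≤ 1 := (div_le_one hΔ).2 hy
  have key : (x / Δ) ^ q * (y / Δ) ^ q' ≤ (x / Δ) ^ s + (y / Δ) ^ s := by
    have hus : 0 ≤ (x / Δ) ^ s := pow_nonneg hu0 s
    have hvs : 0 ≤ (y / Δ) ^ s := pow_nonneg hv0 s
    rcases le_total (x / Δ) (y / Δ) with h | h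
    · calc (x / Δ) ^ q * (y / Δ) ^ q' ≤ (y / Δ) ^ q * (y / Δ) ^ q' := by
            apply mul_le_mul_of_nonneg_right
            · exact pow_le_pow_left₀ hu0 h q
            · exact pow_nonneg hv0 q'
        _ = (y / Δ) ^ (q + q') := by rw [pow_add]
        _ ≤ (y / Δ) ^ s := pow_le_pow_of_le_one hv0 hv1 hs
        _ ≤ (x / Δ) ^ s + (y / Δ) ^ s := by linarith
    · calc (x / Δ) ^ q * (y / Δ) ^ q' ≤ (x / Δ) ^ q * (x / Δ) ^ q' := by
            apply mul_le_mul_of_nonneg_left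
            · exact pow_le_pow_left₀ hv0 h q'
            · exact pow_nonneg hu0 q
        _ = (x / Δ) ^ (q + q') := by rw [pow_add]
        _ ≤ (x / Δ) ^ s := pow_le_pow_of_le_one hu0 hu1 hs
        _ ≤ (x / Δ) ^ s + (y / Δ) ^ s := by linarith
  have he : x ^ q * y ^ q' = Δ ^ (q + q') * ((x / Δ) ^ q * (y / Δ) ^ q') := by
    rw [div_pow, div_pow, pow_add]
    have h1 : Δ ^ q ≠ 0 := (pow_pos hΔ q).ne'
    have h2 : Δ ^ q' ≠ 0 := (pow_pos hΔ q').ne'
    field_simp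
  rw [he]
  exact mul_le_mul_of_nonneg_left key (pow_pos hΔ _).le

end H63

theorem EB : EB_stmt := by
  intro V K _ A lam s q q' d κ KE hA hd hκ hKE hs hdeg hext l w v hwv
  have hΔ : 0 < κ * d := by positivity
  have hdΔ : d ≤ κ * d := by nlinarith
  have hcd : ∀ a b : V, (cd A a b : ℝ) ≤ κ * d := fun a b =>
    le_trans (by exact_mod_cast H63.cd_le_deg A a b) (hdeg a)
  have hsum : ∀ w : V, ∑ w' ∈ Finset.univ.erase w, ((cd A w w' : ℝ) / (κ * d)) ^ s ≤ KE := by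
    intro w
    have h1 : ∀ w' : V, ((cd A w w' : ℝ) / (κ * d)) ^ s = (cd A w w' : ℝ) ^ s / (κ * d) ^ s := fun w' => div_pow _ _ _
    simp only [h1]
    rw [← Finset.sum_div, div_le_iff₀ (pow_pos hΔ s)]
    refine (hext w).trans ?_
    exact mul_le_mul_of_nonneg_left (pow_le_pow_left₀ hd.le hdΔ s) hKE
  set F := Finset.univ.filter (fun p : V × V => A p.1 p.2 ∧ p.1 ≠ w ∧ p.2 ≠ v ∧ lam l p.1 p.2 = lam l w v) with hF
  have hF1 : ∑ p ∈ F, ((cd A w p.1 : ℝ) / (κ * d)) ^ s ≤ KE := by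
    refine le_trans ?_ (hsum w)
    have hinj : Set.InjOn (fun p : V × V => p.1) (F : Set (V × V)) := by
      intro p hp p' hp' he
      rw [Finset.mem_coe, hF, Finset.mem_filter] at hp hp'
      obtain ⟨-, hp1, -, -, hp4⟩ := hp
      obtain ⟨-, hq1, -, -, hq4⟩ := hp'
      have he' : p.1 = p'.1 := he
      have h2 : p.2 = p'.2 := by
        apply hA.prop l p.1 p.2 p'.2 hp1
        · rw [he']; exact hq1
        · rw [hp4, he', hq4]
      exact Prod.ext he' h2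
    rw [← Finset.sum_image (f := fun a : V => ((cd A w a : ℝ) / (κ * d)) ^ s) hinj]
    apply Finset.sum_le_sum_of_subset_of_nonneg
    · intro a ha
      rw [Finset.mem_image] at ha
      obtain ⟨p, hp, rfl⟩ := ha
      rw [hF, Finset.mem_filter] at hp
      exact Finset.mem_erase.2 ⟨hp.2.2.1, Finset.mem_univ _⟩
    · intro a _ _
      positivity
  have hF2 : ∑ p ∈ F, ((cd A v p.2 : ℝ) / (κ * d)) ^ s ≤ KE := by
    refine le_trans ?_ (hsum v)
    have hinj : Set.InjOn (fun p : V × V => p.2) (F : Set (V × V)) := by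
      intro p hp p' hp' he
      rw [Finset.mem_coe, hF, Finset.mem_filter] at hp hp'
      obtain ⟨-, hp1, -, -, hp4⟩ := hp
      obtain ⟨-, hq1, -, -, hq4⟩ := hp'
      have he' : p.2 = p'.2 := he
      have h2 : p.1 = p'.1 := by
        apply hA.prop l p.2 p.1 p'.1 (hA.symm _ _ hp1)
        · rw [he']; exact hA.symm _ _ hq1
        · rw [← hA.csymm l p.1 p.2 hp1, hp4, he', ← hA.csymm l p'.1 p'.2 hq1, hq4]
      exact Prod.ext h2 he'
    rw [← Finset.sum_image (f := fun a : V => ((cd A v a : ℝ) / (κ * d)) ^ s) hinj]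
    apply Finset.sum_le_sum_of_subset_of_nonneg
    · intro a ha
      rw [Finset.mem_image] at ha
      obtain ⟨p, hp, rfl⟩ := ha
      rw [hF, Finset.mem_filter] at hp
      exact Finset.mem_erase.2 ⟨hp.2.2.2.1, Finset.mem_univ _⟩
    · intro a _ _
      positivity
  calc ∑ p ∈ F, (cd A w p.1 : ℝ) ^ q * (cd A v p.2 : ℝ) ^ q'
      ≤ ∑ p ∈ F, (κ * d) ^ (q + q') * (((cd A w p.1 : ℝ) / (κ * d)) ^ s + ((cd A v p.2 : ℝ) / (κ * d)) ^ s) := by
        apply Finset.sum_le_sum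
        intro p _
        exact H63.pw (κ * d) _ _ q q' s hΔ (Nat.cast_nonneg _) (Nat.cast_nonneg _) (hcd _ _) (hcd _ _) hs
    _ = (κ * d) ^ (q + q') * (∑ p ∈ F, ((cd A w p.1 : ℝ) / (κ * d)) ^ s + ∑ p ∈ F, ((cd A v p.2 : ℝ) / (κ * d)) ^ s) := by
        rw [← Finset.mul_sum, Finset.sum_add_distrib]
    _ ≤ (κ * d) ^ (q + q') * (KE + KE) := by
        apply mul_le_mul_of_nonneg_left (add_le_add hF1 hF2) (pow_pos hΔ _).le
    _ = 2 * KE * (κ * d) ^ (q + q') := by ring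

end

end Pool.Agent.IV
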